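import Mathlib
import Pool.Agent.U925.KF.Core

set_option autoImplicit false

open Matrix
open scoped ComplexOrder Kronecker

namespace Pool.Agent.Results.MP_5fe7ea_an.SeparableKyFan

/-- The eigenvalues of a Hermitian `k × k` matrix in nonincreasing order, with multiplicity
(Mathlib's `eigenvalues₀`), indexed by `Fin k`. -/
noncomputable def eigs {k : ℕ} {X : Matrix (Fin k) (Fin k) ℂ} (hX : X.IsHermitian) (i : Fin k) :
    ℝ :=
  hX.eigenvalues₀ (Fin.cast (Fintype.card_fin k).symm i)

/-- `X↓`: the diagonal matrix with the eigenvalues of `X` in nonincreasing order. -/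
noncomputable def sorted {k : ℕ} {X : Matrix (Fin k) (Fin k) ℂ} (hX : X.IsHermitian) :
    Matrix (Fin k) (Fin k) ℂ :=
  diagonal fun i => (eigs hX i : ℂ)

/-- The sum of the `t` largest eigenvalues of a Hermitian matrix (Mathlib's `eigenvalues₀` lists
them with multiplicity in nonincreasing order). -/
noncomputable def topSum {ι : Type} [Fintype ι] [DecidableEq ι] {H : Matrix ι ι ℂ}
    (hH : H.IsHermitian) (t : ℕ) : ℝ :=
  ∑ i ∈ Finset.univ.filter (fun i : Fin (Fintype.card ι) => (i : ℕ) < t), hH.eigenvalues₀ i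

/-- `λ(H) ⪯ λ(K)`: the vector of eigenvalues of `H` is majorized by that of `K`. -/
def Majorized {ι : Type} [Fintype ι] [DecidableEq ι] {H K : Matrix ι ι ℂ}
    (hH : H.IsHermitian) (hK : K.IsHermitian) : Prop :=
  (∀ t, 1 ≤ t → t ≤ Fintype.card ι - 1 → topSum hH t ≤ topSum hK t) ∧
    topSum hH (Fintype.card ι) = topSum hK (Fintype.card ι)

open Pool.Agent.U925.KF

lemma topSum_card {ι : Type} [Fintype ι] [DecidableEq ι] {H : Matrix ι ι ℂ}
    (hH : H.IsHermitian) : topSum hH (Fintype.card ι) = (trace H).re := by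
  obtain ⟨V, hV1, -, hVH⟩ := spec hH
  have e1 : trace H = trace (diagonal (fun i => (hH.eigenvalues₀ i : ℂ))) := by
    conv_lhs => rw [hVH]
    rw [trace_mul_comm, ← Matrix.mul_assoc, hV1, Matrix.one_mul]
  rw [e1, trace_diagonal, Complex.re_sum, topSum, Finset.filter_true_of_mem]
  · rfl
  · intro i _; exact i.2

variable {m n : ℕ}

/-- the common weights: every term is dominated by the fractional Young diagram of the
partial trace -/
lemma term_le (P : Matrix (Fin m × Fin n) (Fin m × Fin n) ℂ) (hP : P.PosSemidef)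
    (hP1 : (1 - P).PosSemidef) {A : Matrix (Fin m) (Fin m) ℂ} {B : Matrix (Fin n) (Fin n) ℂ}
    (hA : A.PosSemidef) (hB : B.PosSemidef) :
    (trace (P * (A ⊗ₖ B))).re ≤ ∑ j, ∑ i, eigs hA.1 j * eigs hB.1 i *
      tau (eigS (ptr_posSemidef hP).1 j) i := by
  obtain ⟨U, hU1, hU2, hU3⟩ := spec' hA.1
  obtain ⟨V, hV1, hV2, hV3⟩ := spec' hB.1
  obtain ⟨Y, hY1, hY2, hY3⟩ := spec' (ptr_posSemidef hP).1
  set r := eigS (ptr_posSemidef hP).1 with hr
  set P' := (U ⊗ₖ V)ᴴ * P * (U ⊗ₖ V) with hP'
  have hUV : (U ⊗ₖ V)ᴴ * (U ⊗ₖ V) = 1 := by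
    rw [conjTranspose_kronecker, ← mul_kronecker_mul, hU1, hV1, one_kronecker_one]
  have hPp : P'.PosSemidef := hP.conjTranspose_mul_mul_same _
  have hPp1 : (1 - P').PosSemidef := by
    have := hP1.conjTranspose_mul_mul_same (U ⊗ₖ V)
    rwa [mul_sub, sub_mul, mul_one, hUV] at this
  have hptr : ptr P' = (Uᴴ * Y) * diagonal (fun i => (r i : ℂ)) * (Uᴴ * Y)ᴴ := by
    rw [hP', ptr_conj P U V hV2]
    conv_lhs => rw [hY3]
    simp only [conjTranspose_mul, conjTranspose_conjTranspose, mul_assoc]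
  have hZ : (Uᴴ * Y) * (Uᴴ * Y)ᴴ = 1 := by
    calc (Uᴴ * Y) * (Uᴴ * Y)ᴴ = Uᴴ * (Y * Yᴴ) * U := by
          simp only [conjTranspose_mul, conjTranspose_conjTranspose, mul_assoc]
      _ = 1 := by rw [hY2, mul_one, hU1]
  have htr : trace (P * (A ⊗ₖ B)) = trace (P' * (diagonal (fun i => (eigS hA.1 i : ℂ)) ⊗ₖ
      diagonal (fun i => (eigS hB.1 i : ℂ)))) := by
    have e1 : A ⊗ₖ B = (U ⊗ₖ V) * (diagonal (fun i => (eigS hA.1 i : ℂ)) ⊗ₖ
        diagonal (fun i => (eigS hB.1 i : ℂ))) * (U ⊗ₖ V)ᴴ := by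
      rw [conjTranspose_kronecker, ← mul_kronecker_mul, ← mul_kronecker_mul, ← hU3, ← hV3]
    calc trace (P * (A ⊗ₖ B)) = trace ((P * ((U ⊗ₖ V) *
          (diagonal (fun i => (eigS hA.1 i : ℂ)) ⊗ₖ
          diagonal (fun i => (eigS hB.1 i : ℂ))))) * (U ⊗ₖ V)ᴴ) := by
          rw [e1]; simp only [mul_assoc]
      _ = _ := by
          rw [trace_mul_comm, hP']
          simp only [mul_assoc]
  have htr2 : (trace (P * (A ⊗ₖ B))).re =
      ∑ j, ∑ i, eigs hA.1 j * eigs hB.1 i * (P' (j, i) (j, i)).re := by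
    rw [htr, diagonal_kronecker_diagonal, trace, Complex.re_sum, Fintype.sum_prod_type]
    refine Finset.sum_congr rfl fun j _ => Finset.sum_congr rfl fun i _ => ?_
    rw [diag_apply, mul_diagonal]
    have : P' (j, i) (j, i) * ((eigS hA.1 j : ℂ) * (eigS hB.1 i : ℂ)) =
        ((eigS hA.1 j * eigS hB.1 i : ℝ) : ℂ) * P' (j, i) (j, i) := by
      push_cast; ring
    rw [this, Complex.re_ofReal_mul]
    rfl
  rw [htr2]
  refine abel_two _ (eigS_antitone hA.1) (eigS_nonneg hA) _ (eigS_antitone hB.1) (eigS_nonneg hB)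
    _ _ ?_
  intro k l hk hl
  refine (block P' hPp hPp1 (Uᴴ * Y) hZ r (eigS_antitone _) hptr k l hk).trans (le_of_eq ?_)
  refine Finset.sum_congr rfl fun j _ => ?_
  exact (sum_tau_fin (r j) (eigS_nonneg (ptr_posSemidef hP) j) l hl).symm

/-- **Separable refinement of Ky Fan's majorization** (Q1, for any number of terms): for positive
semidefinite `A_i`, `B_i`, the eigenvalues of `∑ A_i ⊗ B_i` are majorized by those of
`∑ A_i↓ ⊗ B_i↓`. The case `N = 2` is Q1. -/
theorem result : ∀ (m n N : ℕ) (A : Fin N → Matrix (Fin m) (Fin m) ℂ)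
    (B : Fin N → Matrix (Fin n) (Fin n) ℂ) (hA : ∀ i, (A i).PosSemidef)
    (hB : ∀ i, (B i).PosSemidef),
    ∃ (h₁ : (∑ i, A i ⊗ₖ B i).IsHermitian)
      (h₂ : (∑ i, sorted (hA i).isHermitian ⊗ₖ sorted (hB i).isHermitian).IsHermitian),
      Majorized h₁ h₂ := by
  intro m n N A B hA hB
  have hM : (∑ i, A i ⊗ₖ B i).PosSemidef :=
    posSemidef_sum _ fun i _ => (hA i).kronecker (hB i)
  have hs : ∀ {k : ℕ} {X : Matrix (Fin k) (Fin k) ℂ} (hX : X.PosSemidef),
      (sorted hX.isHermitian).PosSemidef := by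
    intro k X hX
    refine PosSemidef.diagonal fun i => ?_
    have := eigS_nonneg hX i
    simp only [Pi.zero_apply]
    exact_mod_cast this
  have hM' : (∑ i, sorted (hA i).isHermitian ⊗ₖ sorted (hB i).isHermitian).PosSemidef :=
    posSemidef_sum _ fun i _ => (hs (hA i)).kronecker (hs (hB i))
  refine ⟨hM.isHermitian, hM'.isHermitian, ?_, ?_⟩
  · intro t _ _
    obtain ⟨P, hP, hP1, hPt, hPH⟩ := exists_proj hM.isHermitian t
    set r := eigS (ptr_posSemidef hP).1 with hr
    set W : Matrix (Fin m × Fin n) (Fin m × Fin n) ℂ :=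
      diagonal (fun p => (tau (r p.1) p.2 : ℂ)) with hW
    have hW0 : W.PosSemidef := by
      refine PosSemidef.diagonal fun p => ?_
      simp only [Pi.zero_apply]
      exact_mod_cast tau_nonneg _ _
    have hW1 : (1 - W).PosSemidef := by
      rw [hW, ← diagonal_one, diagonal_sub]
      refine PosSemidef.diagonal fun p => ?_
      simp only [Pi.zero_apply]
      have h1 := tau_le_one (r p.1) p.2
      have h2 : (0 : ℝ) ≤ 1 - tau (r p.1) p.2 := by linarith
      exact_mod_cast h2
    have hWt : (trace W).re ≤ t := by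
      rw [hW, trace_diagonal, Complex.re_sum, Fintype.sum_prod_type]
      simp only [Complex.ofReal_re]
      have h1 : ∀ j, ∑ i : Fin n, tau (r j) i ≤ r j := by
        intro j
        have h2 := sum_tau_fin (n := n) (r j) (eigS_nonneg (ptr_posSemidef hP) j) n le_rfl
        have h3 : low n n = Finset.univ := by ext i; simp [low]
        rw [h3] at h2
        rw [h2]; exact min_le_right _ _
      calc ∑ j, ∑ i : Fin n, tau (r j) i ≤ ∑ j, r j := Finset.sum_le_sum fun j _ => h1 j
        _ = (trace (ptr P)).re := by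
            obtain ⟨V, hV1, -, hV3⟩ := spec' (ptr_posSemidef hP).1
            have e1 : trace (ptr P) = trace (diagonal (fun i => (r i : ℂ))) := by
              conv_lhs => rw [hV3]
              rw [trace_mul_comm, ← Matrix.mul_assoc, hV1, Matrix.one_mul]
            rw [e1, trace_diagonal, Complex.re_sum]
            rfl
        _ = (trace P).re := by
            have := trace_ptr_mul P 1
            rw [mul_one, one_kronecker_one, mul_one] at this
            rw [this]
        _ ≤ t := hPt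
    have h1 : (trace (P * ∑ i, A i ⊗ₖ B i)).re ≤
        (trace (W * ∑ i, sorted (hA i).isHermitian ⊗ₖ sorted (hB i).isHermitian)).re := by
      rw [Finset.mul_sum, Finset.mul_sum, trace_sum, trace_sum, Complex.re_sum, Complex.re_sum]
      refine Finset.sum_le_sum fun q _ => ?_
      refine (term_le P hP hP1 (hA q) (hB q)).trans (le_of_eq ?_)
      rw [sorted, sorted, diagonal_kronecker_diagonal, hW, diagonal_mul_diagonal, trace_diagonal,
        Complex.re_sum, Fintype.sum_prod_type]
      refine Finset.sum_congr rfl fun j _ => Finset.sum_congr rfl fun i _ => ?_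
      have : (tau (r j) i : ℂ) * ((eigs (hA q).isHermitian j : ℂ) *
          (eigs (hB q).isHermitian i : ℂ)) = ((eigs (hA q).isHermitian j *
          eigs (hB q).isHermitian i * tau (r j) i : ℝ) : ℂ) := by
        push_cast; ring
      simp only
      rw [this, Complex.ofReal_re]
    have h2 := tr_le_topSum hM' W hW0 hW1 t hWt
    rw [hPH] at h1
    exact h1.trans h2
  · rw [topSum_card, topSum_card, trace_sum, trace_sum]
    congr 1
    refine Finset.sum_congr rfl fun i _ => ?_
    have ht : ∀ {k : ℕ} {X : Matrix (Fin k) (Fin k) ℂ} (hX : X.IsHermitian),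
        trace (sorted hX) = trace X := by
      intro k X hX
      obtain ⟨V, hV1, -, hV3⟩ := spec' hX
      conv_rhs => rw [hV3]
      rw [trace_mul_comm, ← Matrix.mul_assoc, hV1, Matrix.one_mul]
      rfl
    rw [trace_kronecker, trace_kronecker, ht, ht]

end Pool.Agent.Results.MP_5fe7ea_an.SeparableKyFan
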